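import Pool.Agent.V5helper56.DU.Stm

/-!
# Project DU, job H90: Hilbert 90 for `p`-units
-/

set_option linter.style.haveILetI false
set_option linter.unusedSectionVars false
set_option linter.unusedVariables false

open NumberField Ideal Module
open scoped Pointwise nonZeroDivisors

namespace Pool.Agent.V5helper31.DU

open Pool.Agent.V5helper56.DU

theorem t_H90 : Pool.Agent.V5helper56.DU.S_H90 := by
  classical
  intro K L _ _ _ _ _ _ p hp hcard σ hσ y hy
  haveI : IsCyclic Gal(L/K) := ⟨σ, hσ⟩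
  have hord : orderOf σ = p := by rw [orderOf_eq_card_of_forall_mem_zpowers hσ, hcard]
  have hy1 : nP p σ y = 1 := hy
  have hnorm : Algebra.norm K ((y : Lˣ) : L) = 1 := by
    apply (algebraMap K L).injective
    rw [Algebra.norm_eq_prod_automorphisms, map_one]
    have h1 : (Finset.univ : Finset Gal(L/K)) = Finset.image (fun i => σ ^ i) (Finset.range p) := by
      rw [← hord, IsCyclic.image_range_orderOf hσ]
    rw [h1, Finset.prod_image]
    · have h3 := nP_coe p σ y
      rw [← h3, hy1]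
      rfl
    · intro i hi j hj hij
      rw [← hord] at hi hj
      exact pow_injOn_Iio_orderOf (Finset.mem_range.1 (Finset.mem_coe.1 hi))
        (Finset.mem_range.1 (Finset.mem_coe.1 hj)) hij
  have hnorm' : Algebra.norm K (((y : Lˣ) : L))⁻¹ = 1 := by
    rw [Algebra.norm_inv, hnorm, inv_one]
  obtain ⟨z, hz⟩ := groupCohomology.exists_div_of_norm_eq_one hσ hnorm'
  have hz0 : (z : L) ≠ 0 := z.ne_zero
  have hy0 : ((y : Lˣ) : L) ≠ 0 := (y : Lˣ).ne_zero
  have hz1 : σ (z : L) = ((y : Lˣ) : L) * z := by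
    have h2 : σ (z : L) ≠ 0 := by
      intro h
      exact hz0 ((map_eq_zero σ).1 h)
    have h3 : (z : L) / σ (z : L) = (((y : Lˣ) : L))⁻¹ := hz
    rw [div_eq_iff h2] at h3
    calc σ (z : L) = ((y : Lˣ) : L) * ((((y : Lˣ) : L))⁻¹ * σ (z : L)) := by
          rw [← mul_assoc, mul_inv_cancel₀ hy0, one_mul]
      _ = ((y : Lˣ) : L) * z := by rw [← h3]
  have halg : IsAlgebraic ℤ (z : L) :=
    (IsFractionRing.isAlgebraic_iff ℤ ℚ L).2 (Algebra.IsAlgebraic.isAlgebraic (z : L))
  obtain ⟨m, hm, hb⟩ := halg.exists_integral_multiple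
  refine ⟨⟨m • (z : L), hb⟩, ?_, ?_⟩
  · intro h
    have h4 : m • (z : L) = 0 := congrArg (fun w : 𝓞 L => (w : L)) h
    rcases smul_eq_zero.1 h4 with h5 | h5
    · exact hm h5
    · exact hz0 h5
  · show σ (m • (z : L)) = ((y : Lˣ) : L) * (m • (z : L))
    rw [map_zsmul, hz1, mul_smul_comm]

end Pool.Agent.V5helper31.DU
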