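import Pool.Agent.V5helper56.DU.Stm

/-!
# Project DU, job INV: the part prime to `p` of the ideal of a semi-invariant element
-/

set_option linter.style.haveILetI false
set_option linter.unusedSectionVars false
set_option linter.unusedVariables false

open NumberField Ideal Module
open scoped Pointwise nonZeroDivisors

namespace Pool.Agent.V5helper31.DU

open Pool.Agent.V5helper56.DU

lemma split_ideal {L : Type} [Field L] [NumberField L] (p : ℕ) (A : Ideal (𝓞 L)) (hA : A ≠ 0) :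
    ∃ (I J : Ideal (𝓞 L)) (m : ℕ), A = I * J ∧ J ∣ Ideal.span {(p : 𝓞 L)} ^ m ∧
      ∀ Q : Ideal (𝓞 L), Q.IsMaximal → (p : 𝓞 L) ∈ Q → ¬ Q ∣ I := by
  classical
  induction A using UniqueFactorizationMonoid.induction_on_prime with
  | h₁ => exact absurd rfl hA
  | h₂ A hu =>
    refine ⟨A, 1, 0, (mul_one A).symm, one_dvd _, fun Q hQ _ hd => ?_⟩
    have h1 : A = ⊤ := Ideal.isUnit_iff.1 hu
    rw [h1] at hd
    exact hQ.ne_top (top_le_iff.1 (Ideal.dvd_iff_le.1 hd))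
  | h₃ A q hA0 hq ih =>
    obtain ⟨I, J, m, h1, h2, h3⟩ := ih hA0
    by_cases hp : (p : 𝓞 L) ∈ q
    · refine ⟨I, q * J, m + 1, ?_, ?_, h3⟩
      · rw [h1]; ring
      · rw [pow_succ, mul_comm]
        exact mul_dvd_mul h2 (Ideal.dvd_iff_le.2 ((Ideal.span_singleton_le_iff_mem _).2 hp))
    · refine ⟨q * I, J, m, by rw [h1]; ring, h2, fun Q hQ hpQ hd => ?_⟩
      have hQ0 : Q ≠ ⊥ := Ideal.IsMaximal.ne_bot_of_isIntegral_int Q
      have hQp : Prime Q := Ideal.prime_of_isPrime hQ0 hQ.isPrime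
      rcases hQp.dvd_or_dvd hd with h | h
      · have h4 : Associated Q q := (hQp.dvd_prime_iff_associated hq).1 h
        have h5 : Q = q := associated_iff_eq.1 h4
        rw [h5] at hpQ
        exact hp hpQ
      · exact h3 Q hQ hpQ h

lemma coprime_p {L : Type} [Field L] [NumberField L] {p : ℕ} {I : Ideal (𝓞 L)}
    (h : ∀ Q : Ideal (𝓞 L), Q.IsMaximal → (p : 𝓞 L) ∈ Q → ¬ Q ∣ I) :
    IsCoprime I (Ideal.span {(p : 𝓞 L)}) := by
  rw [Ideal.isCoprime_iff_sup_eq]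
  by_contra hne
  obtain ⟨Q, hQ, hle⟩ := Ideal.exists_le_maximal _ hne
  exact h Q hQ (hle (Ideal.mem_sup_right (Ideal.mem_span_singleton_self _)))
    (Ideal.dvd_iff_le.2 (le_sup_left.trans hle))

theorem t_INV : Pool.Agent.V5helper56.DU.S_INV := by
  classical
  intro K L _ _ _ _ _ _ p hp σ hσ b y hb hby
  have hsb : Ideal.span {b} ≠ (0 : Ideal (𝓞 L)) := by
    rw [Ideal.zero_eq_bot, Ne, Ideal.span_singleton_eq_bot]
    exact hb
  obtain ⟨I, J, m, h1, h2, h3⟩ := split_ideal p (Ideal.span {b}) hsb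
  have hcop : IsCoprime I (Ideal.span {(p : 𝓞 L)}) := coprime_p h3
  -- integral multiples of `y`, `y⁻¹`
  obtain ⟨n, hX, hX'⟩ := y.2
  set X : 𝓞 L := ⟨(p : L) ^ n * ((y : Lˣ) : L), hX⟩ with hXdef
  set X' : 𝓞 L := ⟨(p : L) ^ n * (((y : Lˣ)⁻¹ : Lˣ) : L), hX'⟩ with hX'def
  have hXX : X * X' = (p : 𝓞 L) ^ (n + n) := by
    apply FaithfulSMul.algebraMap_injective (𝓞 L) L
    rw [map_mul, map_pow, map_natCast]
    show ((p : L) ^ n * ((y : Lˣ) : L)) * ((p : L) ^ n * (((y : Lˣ)⁻¹ : Lˣ) : L)) = _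
    rw [pow_add]
    have : ((y : Lˣ) : L) * (((y : Lˣ)⁻¹ : Lˣ) : L) = 1 := by
      rw [← Units.val_mul, mul_inv_cancel, Units.val_one]
    calc (p : L) ^ n * ((y : Lˣ) : L) * ((p : L) ^ n * (((y : Lˣ)⁻¹ : Lˣ) : L))
        = (p : L) ^ n * (p : L) ^ n * (((y : Lˣ) : L) * (((y : Lˣ)⁻¹ : Lˣ) : L)) := by ring
      _ = _ := by rw [this, mul_one]
  have hXb : (p : 𝓞 L) ^ n * (σ • b) = X * b := by
    apply FaithfulSMul.algebraMap_injective (𝓞 L) L
    rw [map_mul, map_pow, map_natCast, map_mul]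
    show (p : L) ^ n * σ (b : L) = ((p : L) ^ n * ((y : Lˣ) : L)) * (b : L)
    rw [hby, mul_assoc]
  have hσb : σ • Ideal.span {b} = Ideal.span {σ • b} := by
    rw [Ideal.pointwise_smul_def, Ideal.map_span, Set.image_singleton]
    rfl
  have hσp : σ • Ideal.span {(p : 𝓞 L)} = Ideal.span {(p : 𝓞 L)} := by
    rw [Ideal.pointwise_smul_def, Ideal.map_span, Set.image_singleton]
    congr 2
    exact map_natCast _ p
  have hXd : Ideal.span {X} ∣ Ideal.span {(p : 𝓞 L)} ^ (n + n) := by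
    rw [Ideal.span_singleton_pow, ← hXX, ← Ideal.span_singleton_mul_span_singleton]
    exact dvd_mul_right _ _
  have hmain : Ideal.span {(p : 𝓞 L)} ^ n * ((σ • I) * (σ • J)) = Ideal.span {X} * (I * J) := by
    rw [← Pool.Agent.Helper832_EG.smul_mul_ideal, ← h1, hσb, Ideal.span_singleton_pow,
      Ideal.span_singleton_mul_span_singleton, Ideal.span_singleton_mul_span_singleton, hXb]
  have hσJ : σ • J ∣ Ideal.span {(p : 𝓞 L)} ^ m := by
    obtain ⟨J', hJ'⟩ := h2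
    refine ⟨σ • J', ?_⟩
    rw [← Pool.Agent.Helper832_EG.smul_mul_ideal, ← hJ', smul_pow', hσp]
  have hd1 : I ∣ σ • I := by
    have h4 : I ∣ (Ideal.span {(p : 𝓞 L)} ^ n * (σ • J)) * (σ • I) := by
      have : (Ideal.span {(p : 𝓞 L)} ^ n * (σ • J)) * (σ • I) = Ideal.span {X} * (I * J) := by
        rw [← hmain]; ring
      rw [this]
      exact ⟨Ideal.span {X} * J, by ring⟩
    refine IsCoprime.dvd_of_dvd_mul_left ?_ h4
    have h5 : IsCoprime I (Ideal.span {(p : 𝓞 L)} ^ (n + m)) := hcop.pow_right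
    refine h5.of_isCoprime_of_dvd_right ?_
    rw [pow_add]
    exact mul_dvd_mul_left _ hσJ
  have hd2 : σ • I ∣ I := by
    have hcop' : IsCoprime (σ • I) (Ideal.span {(p : 𝓞 L)}) := by
      have h6 := hcop.map (MulSemiringAction.toRingHom Gal(L/K) (Ideal (𝓞 L)) σ)
      have h7 : (MulSemiringAction.toRingHom Gal(L/K) (Ideal (𝓞 L)) σ) (Ideal.span {(p : 𝓞 L)}) =
          Ideal.span {(p : 𝓞 L)} := hσp
      rw [h7] at h6
      exact h6
    have h4 : σ • I ∣ (Ideal.span {X} * J) * I := by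
      have : (Ideal.span {X} * J) * I = Ideal.span {(p : 𝓞 L)} ^ n * ((σ • I) * (σ • J)) := by
        rw [hmain]; ring
      rw [this]
      exact ⟨Ideal.span {(p : 𝓞 L)} ^ n * (σ • J), by ring⟩
    refine IsCoprime.dvd_of_dvd_mul_left ?_ h4
    have h5 : IsCoprime (σ • I) (Ideal.span {(p : 𝓞 L)} ^ ((n + n) + m)) := hcop'.pow_right
    refine h5.of_isCoprime_of_dvd_right ?_
    rw [pow_add]
    exact mul_dvd_mul hXd h2
  have hinv : σ • I = I := dvd_antisymm hd2 hd1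
  refine ⟨I, J, m, h1, h2, h3, fun g => ?_, fun Q hQ hpQ => ?_⟩
  · obtain ⟨k, rfl⟩ := Subgroup.mem_zpowers_iff.1 (hσ g)
    have h4 : σ ∈ MulAction.stabilizer Gal(L/K) I := hinv
    exact Subgroup.zpow_mem _ h4 k
  · have hQ0 : Q ≠ ⊥ := Ideal.IsMaximal.ne_bot_of_isIntegral_int Q
    have hQp : Prime Q := Ideal.prime_of_isPrime hQ0 hQ.isPrime
    have hf : FiniteMultiplicity Q (I * J) := by
      rw [← h1]
      exact FiniteMultiplicity.of_prime_left hQp hsb
    rw [h1, multiplicity_mul hQp hf]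
    have h4 : ¬ Q ∣ J := by
      intro h
      have h5 : Q ∣ Ideal.span {(p : 𝓞 L)} := hQp.dvd_of_dvd_pow (h.trans h2)
      exact hpQ (Ideal.dvd_iff_le.1 h5 (Ideal.mem_span_singleton_self _))
    rw [multiplicity_eq_zero.2 h4, add_zero]

end Pool.Agent.V5helper31.DU
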