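import Pool.Agent.V5helper56.DU.Stm

/-!
# Project DU, job RNG: when a `p`-unit of norm one is in the range of `dP`
-/

set_option linter.style.haveILetI false
set_option linter.unusedSectionVars false
set_option linter.unusedVariables false

open NumberField Ideal Module
open scoped Pointwise nonZeroDivisors

namespace Pool.Agent.V5helper31.DU

open Pool.Agent.V5helper56.DU

section
variable {K L : Type} [Field K] [NumberField K] [Field L] [NumberField L] [Algebra K L] [IsGalois K L]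

lemma pow_mem_range (p : ℕ) (σ : Gal(L/K)) {y : PU p L} (hy : y ∈ (nP p σ).ker) :
    y ^ p ∈ (dP p σ).range := by
  have h1 : ∀ i : ℕ, (sP p σ)^[i] y / y ∈ (dP p σ).range := by
    intro i
    induction i with
    | zero =>
      rw [Function.iterate_zero, id, div_self']
      exact one_mem _
    | succ i ih =>
      have h2 : (sP p σ)^[i + 1] y / y = dP p σ ((sP p σ)^[i] y) * ((sP p σ)^[i] y / y) := by
        rw [Function.iterate_succ_apply']
        show _ = (sP p σ ((sP p σ)^[i] y) / (sP p σ)^[i] y) * ((sP p σ)^[i] y / y)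
        rw [div_mul_div_cancel]
      rw [h2]
      exact mul_mem ⟨_, rfl⟩ ih
  have h3 : (∏ i ∈ Finset.range p, ((sP p σ)^[i] y / y)) ∈ (dP p σ).range :=
    prod_mem fun i _ => h1 i
  have h4 : (∏ i ∈ Finset.range p, ((sP p σ)^[i] y / y)) = (y ^ p)⁻¹ := by
    rw [Finset.prod_div_distrib, Finset.prod_const, Finset.card_range]
    have h5 : (∏ i ∈ Finset.range p, (sP p σ)^[i] y) = 1 := hy
    rw [h5, one_div]
  rw [h4] at h3
  exact inv_mem_iff.1 h3

end

theorem t_RNG (hI : Pool.Agent.V5helper56.DU.S_INV) : Pool.Agent.V5helper56.DU.S_RNG := by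
  classical
  intro K L _ _ _ _ _ _ p hp hcl σ hσ b y hy hb hby hdiv
  obtain ⟨I, J, m, h1, h2, h3, h4, h5⟩ := hI K L p hp σ hσ b y hb hby
  have hsb : Ideal.span {b} ≠ (⊥ : Ideal (𝓞 L)) := by
    rw [Ne, Ideal.span_singleton_eq_bot]
    exact hb
  have hI0 : I ≠ ⊥ := by
    rintro rfl
    rw [Ideal.bot_mul] at h1
    exact hsb h1
  obtain ⟨𝔞, ha⟩ := Pool.Agent.Helper832_EG.descent (K := K) (L := L) (Ideal.absNorm I) I hI0 le_rfl h4
    (by
      intro Q hQ
      by_cases hpQ : (p : 𝓞 L) ∈ Q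
      · rw [multiplicity_eq_zero.2 (h3 Q hQ hpQ)]
        exact dvd_zero _
      · rw [h5 Q hQ hpQ]
        exact hdiv Q hQ hpQ)
  have ha0 : 𝔞 ≠ ⊥ := by
    rintro rfl
    rw [Ideal.map_bot] at ha
    exact hI0 ha
  obtain ⟨n, m', a, 𝔧, hn, hj, haa⟩ := hcl 𝔞 ha0
  obtain ⟨𝔧', hj'⟩ := hj
  obtain ⟨J', hJ'⟩ := h2
  set aL : 𝓞 L := algebraMap (𝓞 K) (𝓞 L) a with haL
  set jL : Ideal (𝓞 L) := 𝔧.map (algebraMap (𝓞 K) (𝓞 L)) with hjL
  set jL' : Ideal (𝓞 L) := 𝔧'.map (algebraMap (𝓞 K) (𝓞 L)) with hjL'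
  have e1 : Ideal.span {aL} = I ^ n * jL := by
    have := congrArg (Ideal.map (algebraMap (𝓞 K) (𝓞 L))) haa
    rw [Ideal.map_span, Set.image_singleton, Ideal.map_mul, Ideal.map_pow, ← ha] at this
    exact this
  have e2 : Ideal.span {(p : 𝓞 L)} ^ m' = jL * jL' := by
    have := congrArg (Ideal.map (algebraMap (𝓞 K) (𝓞 L))) hj'
    rw [Ideal.map_pow, Ideal.map_span, Set.image_singleton, Ideal.map_mul, map_natCast] at this
    exact this
  have e3 : Ideal.span {b ^ n} = I ^ n * J ^ n := by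
    rw [← Ideal.span_singleton_pow, h1, mul_pow]
  -- `a ∣ p ^ m' b ^ n`
  have d1 : aL ∣ (p : 𝓞 L) ^ m' * b ^ n := by
    rw [← Ideal.mem_span_singleton, ← Ideal.span_singleton_le_iff_mem, ← Ideal.dvd_iff_le,
      ← Ideal.span_singleton_mul_span_singleton, ← Ideal.span_singleton_pow, e2, e1, e3]
    exact ⟨jL' * J ^ n, by ring⟩
  have d2 : b ^ n ∣ (p : 𝓞 L) ^ (m * n) * aL := by
    rw [← Ideal.mem_span_singleton, ← Ideal.span_singleton_le_iff_mem, ← Ideal.dvd_iff_le,
      ← Ideal.span_singleton_mul_span_singleton, ← Ideal.span_singleton_pow (p : 𝓞 L), pow_mul, hJ', e1,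
      e3]
    exact ⟨J' ^ n * jL, by ring⟩
  have hbL : (b : L) ≠ 0 := by
    intro h
    exact hb (by
      apply FaithfulSMul.algebraMap_injective (𝓞 L) L
      rw [map_zero]; exact h)
  have hp0 : (p : L) ≠ 0 := Nat.cast_ne_zero.2 hp.ne_zero
  have haL0 : (aL : L) ≠ 0 := by
    intro h
    have h6 : aL = 0 := by
      apply FaithfulSMul.algebraMap_injective (𝓞 L) L
      rw [map_zero]; exact h
    rw [h6, zero_dvd_iff] at d1
    rcases mul_eq_zero.1 d1 with h7 | h7
    · exact hp0 (by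
        have h8 := congrArg (fun z : 𝓞 L => (z : L)) ((pow_eq_zero_iff').1 h7).1
        simpa using h8)
    · exact hb ((pow_eq_zero_iff').1 h7).1
  -- the `p`-unit `w = b ^ n / a`
  set w0 : Lˣ := Units.mk0 ((b : L) ^ n / (aL : L)) (div_ne_zero (pow_ne_zero _ hbL) haL0) with hw0
  have hw : w0 ∈ PU p L := by
    obtain ⟨c, hc⟩ := d1
    obtain ⟨c', hc'⟩ := d2
    have hcL : (p : L) ^ m' * (b : L) ^ n = (aL : L) * (c : L) := by
      have := congrArg (algebraMap (𝓞 L) L) hc
      rw [map_mul, map_pow, map_pow, map_natCast, map_mul] at this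
      exact this
    have hcL' : (p : L) ^ (m * n) * (aL : L) = (b : L) ^ n * (c' : L) := by
      have := congrArg (algebraMap (𝓞 L) L) hc'
      rw [map_mul, map_pow, map_natCast, map_mul, map_pow] at this
      exact this
    have hpi : ∀ k : ℕ, IsIntegral ℤ ((p : L) ^ k) := by
      intro k
      have := ((p : 𝓞 L) ^ k).2
      exact (by simpa using RingOfIntegers.isIntegral_coe ((p : 𝓞 L) ^ k))
    refine ⟨m' + m * n, ?_, ?_⟩
    · have h6 : (p : L) ^ (m' + m * n) * (w0 : L) = (p : L) ^ (m * n) * (c : L) := by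
        show (p : L) ^ (m' + m * n) * ((b : L) ^ n / (aL : L)) = _
        rw [pow_add]
        rw [mul_comm ((p : L) ^ m'), mul_assoc, mul_div_assoc', hcL, mul_div_cancel_left₀ _ haL0]
      rw [h6]
      exact (hpi _).mul (RingOfIntegers.isIntegral_coe c)
    · have h6 : (p : L) ^ (m' + m * n) * ((w0⁻¹ : Lˣ) : L) = (p : L) ^ m' * (c' : L) := by
        rw [Units.val_inv_eq_inv_val]
        show (p : L) ^ (m' + m * n) * ((b : L) ^ n / (aL : L))⁻¹ = _
        rw [inv_div, pow_add]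
        have hbn : (b : L) ^ n ≠ 0 := pow_ne_zero _ hbL
        rw [mul_assoc, mul_div_assoc', hcL', mul_div_cancel_left₀ _ hbn]
      rw [h6]
      exact (hpi _).mul (RingOfIntegers.isIntegral_coe c')
  have hyn : y ^ n ∈ (dP p σ).range := by
    refine ⟨⟨w0, hw⟩, ?_⟩
    show sP p σ ⟨w0, hw⟩ / ⟨w0, hw⟩ = y ^ n
    rw [div_eq_iff_eq_mul]
    apply Subtype.ext
    apply Units.ext
    rw [sP_coe]
    show σ ((b : L) ^ n / (aL : L)) = ((y : Lˣ) : L) ^ n * ((b : L) ^ n / (aL : L))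
    have h6 : σ (aL : L) = (aL : L) := by
      have h7 : (aL : L) = algebraMap K L (a : K) := rfl
      rw [h7]
      exact σ.commutes _
    rw [map_div₀, map_pow, hby, h6, mul_pow]
    ring
  have hyp := pow_mem_range p σ hy
  -- `n` is prime to `p`
  have hcop : Nat.Coprime n p := ((Nat.Prime.coprime_iff_not_dvd hp).2 hn).symm
  have q1 : (QuotientGroup.mk y : PU p L ⧸ (dP p σ).range) ^ n = 1 := by
    rw [← QuotientGroup.mk_pow]
    exact (QuotientGroup.eq_one_iff _).2 hyn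
  have q2 : (QuotientGroup.mk y : PU p L ⧸ (dP p σ).range) ^ p = 1 := by
    rw [← QuotientGroup.mk_pow]
    exact (QuotientGroup.eq_one_iff _).2 hyp
  have q3 := pow_gcd_eq_one.2 ⟨q1, q2⟩
  rw [Nat.Coprime.gcd_eq_one hcop, pow_one] at q3
  exact (QuotientGroup.eq_one_iff _).1 q3

end Pool.Agent.V5helper31.DU
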